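import Pool.Agent.Helper42.ModelEmbed

/-!
# Q2 (the complemented version) has a negative answer for every countable ordinal `α > 0`
-/

open Ordinal

namespace Pool.Agent.Results.MP_ba88e9_an.NegationQ2

open Pool.Agent.Helper42

/-- For every countable ordinal `α > 0` there are Banach spaces `X`, `Y` such that
`C(ω^(ω^α))` embeds complementably in the injective tensor product `Z` of `X` and `Y`, while it
embeds complementably in neither `X` nor `Y`, and for every admissible sequence `(α_n)` and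
both orderings of `(X, Y)`, it is not the case that `(C(ω^(α_n)))` embeds uniformly
complementably in the first space and `c₀` embeds in the second.  -/
theorem result (α : Ordinal.{0}) (_hα : 0 < α) (hαc : α < ω₁) :
    ∃ (X Y Z : Type 1) (_ : NormedAddCommGroup X) (_ : NormedSpace ℝ X) (_ : CompleteSpace X)
      (_ : NormedAddCommGroup Y) (_ : NormedSpace ℝ Y) (_ : CompleteSpace Y)
      (_ : NormedAddCommGroup Z) (_ : NormedSpace ℝ Z) (_ : CompleteSpace Z),
      IsInjTensor X Y Z ∧ EmbedsCompl (COrd (ω ^ ω ^ α)) Z ∧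
      ¬ EmbedsCompl (COrd (ω ^ ω ^ α)) X ∧ ¬ EmbedsCompl (COrd (ω ^ ω ^ α)) Y ∧
      ∀ a : ℕ → Ordinal.{0}, Monotone a → (∀ n, a n < ω ^ α) → ⨆ n, a n = ω ^ α →
        ¬ (EmbedsUnifCompl (fun n => COrd (ω ^ a n)) X ∧ Embeds c0 Y) ∧
        ¬ (EmbedsUnifCompl (fun n => COrd (ω ^ a n)) Y ∧ Embeds c0 X) := by
  have h1 : ω ^ ω ^ α < ω₁ :=
    isPrincipal_opow_omega 1 omega0_lt_omega_one
      (isPrincipal_opow_omega 1 omega0_lt_omega_one hαc)
  obtain ⟨X, i1, i2, i3, hX, Z, j1, j2, j3, hZ, hE⟩ := exists_square _ h1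
  have hc0 : ¬ Embeds c0 X := fun h => c0_not_nullSums (h.nullSums hX)
  have hω : ω ≤ ω ^ ω ^ α := by
    have h2 : (1 : Ordinal) ≤ ω ^ α := Order.one_le_iff_pos.2 (opow_pos _ omega0_pos)
    calc (ω : Ordinal) = ω ^ (1 : Ordinal) := (opow_one _).symm
      _ ≤ ω ^ ω ^ α := opow_le_opow_right omega0_pos h2
  have hC : ¬ EmbedsCompl (COrd (ω ^ ω ^ α)) X :=
    fun h => COrd_not_nullSums _ hω (h.embeds.nullSums hX)
  exact ⟨X, X, Z, i1, i2, i3, i1, i2, i3, j1, j2, j3, hZ, hE, hC, hC,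
    fun a _ _ _ => ⟨fun h => hc0 h.2, fun h => hc0 h.2⟩⟩

end Pool.Agent.Results.MP_ba88e9_an.NegationQ2
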